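import Mathlib
import Pool.Agent.H282R3.RW.Defs
import Pool.Agent.Y906.RW.Grid

/-!
# The escape rate of the rotor walk when the rotors lead to infinity along most of the columns

Let `d ≥ 3`, let `m` be any rotor mechanism and let `v` be a coordinate. A column is a line
`x + ℤ e_v`; it is named by its foot `foot v x`, the point with `v`-th coordinate `0`. Two columns
are neighbours (`Beside v`) if their feet differ by a unit vector. `Lead v ρ x` says that the rotors
of `ρ` point up at `x, x + e_v, x + 2 e_v, …`, or down at `x, x - e_v, x - 2 e_v, …`.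

(1) Let `Ex` be a set of columns whose connected components have at most `K` columns. If the rotors
of `ρ` lead to infinity from each vertex which is not in a column of `Ex`, then the proportion of
the first `n` particles which escape tends to the escape probability of the simple random walk,
whatever the rotors in the columns of `Ex` are.

(2) This is so if in each column the rotors point up from some height on and down below it, where
the height is an arbitrary function of the column with values in `[-∞, ∞]`.

(3) It is so if, for some `L ≥ 1`, the rotors are equal to `e_v` at the vertices which have a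
coordinate other than the `v`-th one divisible by `L`, whatever the other rotors are. (The vertices
where the rotors are prescribed have density `1 - (1 - 1 / L) ^ (d - 1)`, which is small if `L` is
large.) The case `L = 1` is the aligned configuration, stated as (4).

Idea of the proof (that of the aligned case in `Pool.Agent.H282R3.RW.Main`, changed): keep a finite
set `A` of columns which contains the columns met so far, the column of the origin, and with each
column the components of its exceptional neighbours. A particle which leaves `A` enters a column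
that is not exceptional and escapes along it; so `A` grows by at most `2 d K + 1` columns for each
escaping particle, and only then. The weights of the rotors are normalised at the initial rotors.
-/

set_option autoImplicit false

open Filter Topology
open Pool.Agent.H282R3.RW Pool.Agent.Y906.RW

namespace Pool.Agent.Results.MP_b041da_pr.DivergingColumns

theorem general (d : ℕ) [NeZero d] (hd : 3 ≤ d) (m : V d → Equiv.Perm (Dir d))
    (hm : IsMechanism m) (v : Fin d) (Ex : Set (V d)) (K : ℕ) (h0 : ∀ y ∈ Ex, y v = 0)
    (hK : ∀ y ∈ Ex,
      {z | Relation.ReflTransGen (fun a b => b ∈ Ex ∧ Beside v a b) y z}.encard ≤ K)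
    (ρ : V d → Dir d) (hρ : ∀ x, foot v x ∉ Ex → Lead v ρ x) :
    Tendsto (fun n : ℕ => (escapeCount m ρ n : ℝ) / n) atTop (𝓝 (escapeProb d)) :=
  tendsto_escapeCount hm hd (comp_compSet h0 hK) hρ

theorem result :
    ∀ (d : ℕ) [NeZero d], 3 ≤ d →
      ∀ m : V d → Equiv.Perm (Dir d), IsMechanism m → ∀ v : Fin d,
        -- (1)
        (∀ (Ex : Set (V d)) (K : ℕ), (∀ y ∈ Ex, y v = 0) →
          (∀ y ∈ Ex,
            {z | Relation.ReflTransGen (fun a b => b ∈ Ex ∧ Beside v a b) y z}.encard ≤ K) →
          ∀ ρ : V d → Dir d, (∀ x, foot v x ∉ Ex → Lead v ρ x) →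
            Tendsto (fun n : ℕ => (escapeCount m ρ n : ℝ) / n) atTop (𝓝 (escapeProb d))) ∧
        -- (2)
        (∀ (h : V d → EReal) (ρ : V d → Dir d),
          (∀ x, h (foot v x) ≤ (((x v : ℤ) : ℝ) : EReal) → ρ x = (v, true)) →
          (∀ x, ¬ h (foot v x) ≤ (((x v : ℤ) : ℝ) : EReal) → ρ x = (v, false)) →
            Tendsto (fun n : ℕ => (escapeCount m ρ n : ℝ) / n) atTop (𝓝 (escapeProb d))) ∧
        -- (3)
        (∀ (L : ℕ), 1 ≤ L → ∀ ρ : V d → Dir d,
          (∀ x, (∃ i, i ≠ v ∧ (L : ℤ) ∣ x i) → ρ x = (v, true)) →
            Tendsto (fun n : ℕ => (escapeCount m ρ n : ℝ) / n) atTop (𝓝 (escapeProb d))) ∧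
        -- (4)
        Tendsto (fun n : ℕ => (escapeCount m (fun _ => (v, true)) n : ℝ) / n) atTop
            (𝓝 (escapeProb d)) := by
  intro d _ hd m hm v
  have key2 : ∀ (h : V d → EReal) (ρ : V d → Dir d),
      (∀ x, h (foot v x) ≤ (((x v : ℤ) : ℝ) : EReal) → ρ x = (v, true)) →
      (∀ x, ¬ h (foot v x) ≤ (((x v : ℤ) : ℝ) : EReal) → ρ x = (v, false)) →
        Tendsto (fun n : ℕ => (escapeCount m ρ n : ℝ) / n) atTop (𝓝 (escapeProb d)) := by
    intro h ρ h1 h2
    refine general d hd m hm v ∅ 0 (by simp) (by simp) ρ fun x _ => ?_
    by_cases hx : h (foot v x) ≤ (((x v : ℤ) : ℝ) : EReal)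
    · left
      intro k
      apply h1
      rw [foot_add_single]
      refine hx.trans ?_
      have h3 : (x + Pi.single v (k : ℤ) : V d) v = x v + k := by simp
      rw [h3, EReal.coe_le_coe_iff]
      push_cast
      linarith [(Nat.cast_nonneg k : (0 : ℝ) ≤ k)]
    · right
      intro k
      apply h2
      rw [foot_sub_single]
      intro h4
      apply hx
      refine h4.trans ?_
      have h3 : (x - Pi.single v (k : ℤ) : V d) v = x v - k := by simp
      rw [h3, EReal.coe_le_coe_iff]
      push_cast
      linarith [(Nat.cast_nonneg k : (0 : ℝ) ≤ k)]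
  refine ⟨fun Ex K h0 hK ρ hρ => general d hd m hm v Ex K h0 hK ρ hρ, key2, ?_, ?_⟩
  · intro L hL ρ hρ
    refine general d hd m hm v (offGrid v (L : ℤ)) (L ^ d) (fun y hy => hy.1)
      (fun y hy => offGrid_encard (by omega) hy) ρ fun x hx => ?_
    have h1 : ∃ i, i ≠ v ∧ (L : ℤ) ∣ x i := by
      by_contra hcon
      push Not at hcon
      refine hx ⟨foot_v v x, fun i hi => ?_⟩
      have h2 : foot v x i = x i := by
        unfold foot
        exact Function.update_of_ne hi _ _
      rw [h2]
      exact hcon i hi
    obtain ⟨i, hi, hdvd⟩ := h1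
    left
    intro k
    refine hρ _ ⟨i, hi, ?_⟩
    have h2 : (x + Pi.single v (k : ℤ) : V d) i = x i := by simp [hi]
    rw [h2]
    exact hdvd
  · exact key2 (fun _ => ⊥) (fun _ => (v, true)) (fun _ _ => rfl) fun x hx => absurd bot_le hx

end Pool.Agent.Results.MP_b041da_pr.DivergingColumns
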